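import Pool.Agent.N70.ES.Stm2

/-!
Project ES (helper70): GNO, the degrees for which the alternating fibre power splits (helper459).
-/

set_option autoImplicit false

namespace Pool.Agent.N459.ES

open Pool.Agent.H391R2 Pool.Agent.Y793
open Pool.Agent.N70.EQ (FPk fpk)
open Pool.Agent.N70.ES

/-- two splittings, side by side -/
theorem spl_add (hwg : St_wg) {H B : Type} [Group H] [Group B] {a : B →* H} {χ χ' : H →* ℤˣ}
    {n n' : ℕ} (h : Spl a χ n) (h' : Spl a χ' n') : Spl a (χ * χ') (n + n') := by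
  obtain ⟨s, hs⟩ := h
  obtain ⟨s', hs'⟩ := h'
  obtain ⟨j, hj⟩ := hwg H B a χ χ' n n'
  let p : H →* FPk (twProj a χ n) (twProj a χ' n') :=
    (s.prod s').codRestrict _ (fun h => (hs h).trans (hs' h).symm)
  exact ⟨j.comp p, fun h => (hj (p h)).trans (hs' h)⟩

/-- characters of order two -/
theorem chi_sq {H : Type} [Group H] (χ : H →* ℤˣ) : χ * χ = 1 :=
  MonoidHom.ext fun h => Int.units_mul_self (χ h)

theorem t_gno : Pool.Agent.N70.ES.St_gnOf := by
  intro hwg hgi hgd H B _ _ _ _ a ha I hI hdI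
  obtain ⟨J1, hJ1⟩ : ∃ J1, J1 = Nat.setGcd {n | Spl a 1 n} := ⟨_, rfl⟩
  have hdvd : ∀ n, Spl a 1 n → J1 ∣ n := fun n hn => by
    rw [hJ1]
    exact Nat.setGcd_dvd_of_mem hn
  have hcl : ∀ x ∈ AddSubmonoid.closure {n | Spl a 1 n}, x = 0 ∨ Spl a 1 x := by
    intro x hx
    induction hx using AddSubmonoid.closure_induction with
    | mem x hx => exact Or.inr hx
    | zero => exact Or.inl rfl
    | add x y _ _ hx hy =>
      rcases hx with hx | hx
      · rw [hx, zero_add]
        exact hy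
      · rcases hy with hy | hy
        · rw [hy, add_zero]
          exact Or.inr hx
        · have h1 := spl_add hwg hx hy
          rw [mul_one] at h1
          exact Or.inr h1
  have hU : ∀ (U : Subgroup H) (s : U →* B), (∀ u, a (s u) = u) → J1 ∣ 2 * U.index := by
    intro U s hs
    obtain ⟨δ, hδ⟩ := hgi H B a ha U s hs
    have h1 := spl_add hwg hδ hδ
    rw [chi_sq, ← two_mul] at h1
    exact hdvd _ h1
  have hJI : J1 ∣ 2 * I := by
    obtain ⟨k, hk | hk⟩ := Nat.even_or_odd' J1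
    · rw [hk]
      refine Nat.mul_dvd_mul_left 2 ?_
      rw [hdI]
      intro U s hs
      have h1 := hU U s hs
      rw [hk] at h1
      exact Nat.dvd_of_mul_dvd_mul_left (by norm_num) h1
    · refine Dvd.dvd.mul_left ?_ 2
      rw [hdI]
      intro U s hs
      exact (Nat.Coprime.dvd_mul_left (Nat.coprime_two_right.2 ⟨k, hk⟩)).1 (hU U s hs)
  obtain ⟨N, hN⟩ : ∃ N, ∀ m ≥ N, J1 ∣ m → m ∈ AddSubmonoid.closure {n | Spl a 1 n} := by
    rw [hJ1]
    exact Nat.exists_mem_closure_of_ge _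
  have hbig : ∀ m ≥ N + 1, 2 * I ∣ m → Spl a 1 m := by
    intro m hm hd
    rcases hcl m (hN m (by omega) (hJI.trans hd)) with h | h
    · omega
    · exact h
  by_cases hodd : Odd I
  · obtain ⟨U, s, hs, hUo⟩ : ∃ (U : Subgroup H) (s : U →* B),
        (∀ u, a (s u) = u) ∧ Odd U.index := by
      by_contra hno
      have h2 : 2 ∣ I := by
        rw [hdI]
        intro U s hs
        by_contra h3
        exact hno ⟨U, s, hs, by rw [← Nat.not_even_iff_odd, even_iff_two_dvd]; exact h3⟩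
      exact (Nat.not_even_iff_odd.2 hodd) (even_iff_two_dvd.2 h2)
    obtain ⟨k, hk⟩ := hUo
    have hI' : I ∣ U.index := (hdI I).1 dvd_rfl U s hs
    obtain ⟨δ, hδ⟩ := hgi H B a ha U s hs
    have h2m : ∀ χ : H →* ℤˣ, Spl a χ (2 * U.index) := by
      intro χ
      have h1 := hgd H B a χ δ U.index hδ
      have hχ : χ ^ U.index = χ := by
        rw [hk, pow_succ, pow_mul, sq, chi_sq, one_pow, one_mul]
      rwa [hχ] at h1
    have h3m : ∀ χ : H →* ℤˣ, Spl a χ (3 * U.index) := by
      intro χ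
      have h1 := spl_add hwg hδ (h2m (δ * χ))
      rw [← mul_assoc, chi_sq, one_mul] at h1
      have h2 : U.index + 2 * U.index = 3 * U.index := by ring
      rwa [h2] at h1
    refine ⟨N + 1 + 3 * U.index, fun n hn => ⟨fun _ hIn χ => ?_, fun h => hbig n (by omega) h⟩⟩
    have key : ∀ m, I ∣ m → (∀ χ : H →* ℤˣ, Spl a χ m) → m ≤ 3 * U.index → Even (n - m) →
        Spl a χ n := by
      intro m hm hχ hle hev
      have h1 : I ∣ n - m := Nat.dvd_sub hIn hm
      have h2 : 2 * I ∣ n - m := Nat.Coprime.mul_dvd_of_dvd_of_dvd (Nat.coprime_two_left.2 hodd)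
        (even_iff_two_dvd.1 hev) h1
      have h3 := spl_add hwg (hχ χ) (hbig (n - m) (by omega) h2)
      rw [mul_one] at h3
      have h4 : m + (n - m) = n := by omega
      rwa [h4] at h3
    rcases Nat.even_or_odd n with he | ho
    · obtain ⟨e, he⟩ := he
      exact key (2 * U.index) (Dvd.dvd.mul_left hI' 2) h2m (by omega) ⟨e - U.index, by omega⟩
    · obtain ⟨e, he⟩ := ho
      exact key (3 * U.index) (Dvd.dvd.mul_left hI' 3) h3m le_rfl ⟨e - 3 * k - 1, by omega⟩
  · exact ⟨N + 1, fun n hn => ⟨fun h => absurd h hodd, fun h => hbig n hn h⟩⟩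

end Pool.Agent.N459.ES
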